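import Pool.Agent.Lib.MP_edb5be_nt.ND.Iface

/-! Module LIP: the block densities are bounded and Lipschitz. -/

set_option autoImplicit false

namespace Pool.Agent.Lib.MP_edb5be_nt.ND.H63

open Finset Pool.Agent.Lib.MP_0a5adf_nt.TP Pool.Agent.Lib.MP_edb5be_nt.ND

theorem set_eq_Ico (x y : ℝ) : {N : ℕ | x ≤ N ∧ (N : ℝ) < y} = (Finset.Ico ⌈x⌉₊ ⌈y⌉₊ : Finset ℕ) := by
  ext N
  simp [Nat.ceil_le, Nat.lt_ceil]

theorem fin_block (x y : ℝ) : {N : ℕ | x ≤ N ∧ (N : ℝ) < y}.Finite := by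
  rw [set_eq_Ico]
  exact Finset.finite_toSet _

theorem ncard_block {x y : ℝ} (hx : 0 ≤ x) (hxy : x ≤ y) :
    ({N : ℕ | x ≤ N ∧ (N : ℝ) < y}.ncard : ℝ) ≤ y - x + 1 := by
  rw [set_eq_Ico, Set.ncard_coe_finset, Nat.card_Ico, Nat.cast_sub (Nat.ceil_mono hxy)]
  have h1 : x ≤ ⌈x⌉₊ := Nat.le_ceil x
  have h2 : (⌈y⌉₊ : ℝ) < y + 1 := Nat.ceil_lt_add_one (hx.trans hxy)
  linarith

/-- The counted set. -/
def blkB (B : Set ℕ) (u : ℝ) : Set ℕ := {N : ℕ | N ∈ B ∧ (2 : ℝ) ^ u ≤ N ∧ (N : ℝ) < 2 ^ (u + 1)}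

theorem blkB_sub (B : Set ℕ) (u : ℝ) : blkB B u ⊆ {N : ℕ | (2 : ℝ) ^ u ≤ N ∧ (N : ℝ) < 2 ^ (u + 1)} :=
  fun _ h => h.2

theorem blkB_fin (B : Set ℕ) (u : ℝ) : (blkB B u).Finite := (fin_block _ _).subset (blkB_sub B u)

theorem lip : LipStatement := by
  intro B u h hu h0 h1
  have hG : ∀ u, Gd B u = ((blkB B u).ncard : ℝ) / 2 ^ u := fun _ => rfl
  have hp : (0 : ℝ) < 2 ^ u := by positivity
  have hu1 : (2 : ℝ) ^ (u + 1) = 2 * 2 ^ u := by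
    rw [Real.rpow_add (by norm_num), Real.rpow_one]; ring
  have hh1 : (1 : ℝ) ≤ 2 ^ h := Real.one_le_rpow (by norm_num) h0
  have hh2 : (2 : ℝ) ^ h ≤ 1 + h := by
    have := _root_.rpow_one_add_le_one_add_mul_self (s := 1) (by norm_num) h0 h1
    norm_num at this
    linarith
  have huh : (2 : ℝ) ^ (u + h) = 2 ^ u * 2 ^ h := Real.rpow_add (by norm_num) _ _
  have huh1 : (2 : ℝ) ^ (u + h + 1) = 2 * (2 ^ u * 2 ^ h) := by
    rw [Real.rpow_add (by norm_num), Real.rpow_one, huh]; ring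
  have hA : ((blkB B u).ncard : ℝ) ≤ 2 ^ u + 1 := by
    have e1 : ((blkB B u).ncard : ℝ) ≤
        ({N : ℕ | (2 : ℝ) ^ u ≤ N ∧ (N : ℝ) < 2 ^ (u + 1)}.ncard : ℝ) := by
      exact_mod_cast Set.ncard_le_ncard (blkB_sub B u) (fin_block _ _)
    have e2 := ncard_block (x := (2 : ℝ) ^ u) (y := 2 ^ (u + 1)) hp.le (by rw [hu1]; linarith)
    rw [hu1] at e2 e1
    linarith
  have hA0 : (0 : ℝ) ≤ (blkB B u).ncard := Nat.cast_nonneg _
  have hA2 : ((blkB B (u + h)).ncard : ℝ) ≤ (blkB B u).ncard + (2 * 2 ^ u * h + 1) := by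
    have e0 : blkB B (u + h) ⊆
        blkB B u ∪ {N : ℕ | (2 : ℝ) ^ (u + 1) ≤ N ∧ (N : ℝ) < 2 ^ (u + h + 1)} := by
      intro N hN
      obtain ⟨a, b, c⟩ := hN
      by_cases hc : (N : ℝ) < 2 ^ (u + 1)
      · refine Or.inl ⟨a, le_trans ?_ b, hc⟩
        rw [huh]
        nlinarith
      · exact Or.inr ⟨not_lt.1 hc, c⟩
    have e1 : (blkB B (u + h)).ncard ≤ (blkB B u).ncard +
        {N : ℕ | (2 : ℝ) ^ (u + 1) ≤ N ∧ (N : ℝ) < 2 ^ (u + h + 1)}.ncard :=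
      (Set.ncard_le_ncard e0 ((blkB_fin B u).union (fin_block _ _))).trans (Set.ncard_union_le _ _)
    have e2 := ncard_block (x := (2 : ℝ) ^ (u + 1)) (y := 2 ^ (u + h + 1)) (by positivity)
      (by rw [hu1, huh1]; nlinarith)
    have e3 : ((blkB B (u + h)).ncard : ℝ) ≤ (blkB B u).ncard +
        ({N : ℕ | (2 : ℝ) ^ (u + 1) ≤ N ∧ (N : ℝ) < 2 ^ (u + h + 1)}.ncard : ℝ) := by
      exact_mod_cast e1
    have e4 : (2 : ℝ) ^ (u + h + 1) - 2 ^ (u + 1) ≤ 2 * 2 ^ u * h := by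
      rw [huh1, hu1]; nlinarith
    linarith
  have hA1 : ((blkB B u).ncard : ℝ) ≤ (blkB B (u + h)).ncard + (2 ^ u * h + 1) := by
    have e0 : blkB B u ⊆
        blkB B (u + h) ∪ {N : ℕ | (2 : ℝ) ^ u ≤ N ∧ (N : ℝ) < 2 ^ (u + h)} := by
      intro N hN
      obtain ⟨a, b, c⟩ := hN
      by_cases hc : (N : ℝ) < 2 ^ (u + h)
      · exact Or.inr ⟨b, hc⟩
      · refine Or.inl ⟨a, not_lt.1 hc, lt_of_lt_of_le c ?_⟩
        rw [hu1, huh1]
        nlinarith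
    have e1 : (blkB B u).ncard ≤ (blkB B (u + h)).ncard +
        {N : ℕ | (2 : ℝ) ^ u ≤ N ∧ (N : ℝ) < 2 ^ (u + h)}.ncard :=
      (Set.ncard_le_ncard e0 ((blkB_fin B (u + h)).union (fin_block _ _))).trans
        (Set.ncard_union_le _ _)
    have e2 := ncard_block (x := (2 : ℝ) ^ u) (y := 2 ^ (u + h)) (by positivity)
      (by rw [huh]; nlinarith)
    have e3 : ((blkB B u).ncard : ℝ) ≤ (blkB B (u + h)).ncard +
        ({N : ℕ | (2 : ℝ) ^ u ≤ N ∧ (N : ℝ) < 2 ^ (u + h)}.ncard : ℝ) := by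
      exact_mod_cast e1
    have e4 : (2 : ℝ) ^ (u + h) - 2 ^ u ≤ 2 ^ u * h := by
      rw [huh]; nlinarith
    linarith
  refine ⟨by rw [hG]; positivity, ?_, ?_⟩
  · rw [hG, div_le_iff₀ hp]
    have : (1 + 1 / (2 : ℝ) ^ u) * 2 ^ u = 2 ^ u + 1 := by field_simp
    rw [this]
    exact hA
  · have hone : (1 : ℝ) ≤ 2 ^ u := Real.one_le_rpow (by norm_num) hu
    have hph : (0 : ℝ) < 2 ^ h := by positivity
    rw [hG, hG, huh]
    set P : ℝ := 2 ^ u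
    set Q : ℝ := 2 ^ h
    set x : ℝ := ((blkB B (u + h)).ncard : ℝ)
    set y : ℝ := ((blkB B u).ncard : ℝ)
    have key : x / (P * Q) - y / P = (x - y * Q) / (P * Q) := by
      field_simp
    have hPQ : 0 < P * Q := mul_pos hp hph
    have e5 : 10 * (h + 1 / P) * (P * Q) = 10 * h * P * Q + 10 * Q := by
      field_simp
    have hyQ : y * Q ≤ y + y * h := by nlinarith
    have hyh : y * h ≤ P * h + h := by nlinarith
    have hPh : 0 ≤ P * h := mul_nonneg hp.le h0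
    have hPhQ : P * h ≤ P * h * Q := by nlinarith
    rw [key, abs_le, le_div_iff₀ hPQ, div_le_iff₀ hPQ, neg_mul, e5]
    constructor
    · nlinarith
    · nlinarith

end Pool.Agent.Lib.MP_edb5be_nt.ND.H63
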