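import Pool.Agent.Lib.MP_edb5be_nt.ND.Iface3
import Pool.Agent.Lib.MP_edb5be_nt.ND.H63.Lip

/-! Module DOUBLE: comparison of neighbouring blocks. -/

set_option autoImplicit false

namespace Pool.Agent.Lib.MP_edb5be_nt.ND.H63

open Finset Pool.Agent.Lib.MP_0a5adf_nt.TP Pool.Agent.Lib.MP_edb5be_nt.ND

theorem T_two_mul (d : Bool) (N : ℕ) : T d (2 * N) = N := by
  unfold T
  simp

theorem ncard_le_shift {d : Bool} {B : Set ℕ} {lo : ℕ} {u x : ℝ} (hB : InvA d B lo)
    (hu : (lo : ℝ) ≤ u) (h0 : 0 ≤ x) (h1 : x ≤ 1) :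
    (blkB B u).ncard ≤ (blkB B (u + x)).ncard := by
  classical
  have hp : (0 : ℝ) < 2 ^ u := by positivity
  have hu1 : (2 : ℝ) ^ (u + 1) = 2 * 2 ^ u := by
    rw [Real.rpow_add (by norm_num), Real.rpow_one]; ring
  have hux1 : (2 : ℝ) ^ (u + x + 1) = 2 * 2 ^ (u + x) := by
    rw [Real.rpow_add (by norm_num), Real.rpow_one]; ring
  have ha : (2 : ℝ) ^ (u + x) ≤ 2 ^ (u + 1) :=
    Real.rpow_le_rpow_of_exponent_le (by norm_num) (by linarith)
  have hb : (2 : ℝ) ^ u ≤ 2 ^ (u + x) :=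
    Real.rpow_le_rpow_of_exponent_le (by norm_num) (by linarith)
  have hlo : ((2 ^ lo : ℕ) : ℝ) ≤ 2 ^ u := by
    push_cast
    rw [← Real.rpow_natCast]
    exact Real.rpow_le_rpow_of_exponent_le (by norm_num) hu
  refine Set.ncard_le_ncard_of_injOn (fun N : ℕ => if (2 : ℝ) ^ (u + x) ≤ N then N else 2 * N) ?_ ?_
    (blkB_fin B (u + x))
  · rintro N ⟨hN, hN1, hN2⟩
    have hlo' : 2 ^ lo ≤ N := by
      have : ((2 ^ lo : ℕ) : ℝ) ≤ N := hlo.trans hN1
      exact_mod_cast this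
    split_ifs with hc
    · exact ⟨hN, hc, by rw [hux1]; linarith⟩
    · push Not at hc
      refine ⟨?_, ?_, ?_⟩
      · rw [hB (2 * N) (by omega), T_two_mul]
        exact hN
      · push_cast
        linarith
      · push_cast
        rw [hux1]
        linarith
  · rintro N ⟨-, hN1, hN2⟩ M ⟨-, hM1, hM2⟩ hNM
    dsimp only at hNM
    split_ifs at hNM with h3 h4 h4
    · exact hNM
    · exfalso
      rw [hNM] at hN2
      push_cast at hN2
      linarith
    · exfalso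
      rw [← hNM] at hM2
      push_cast at hM2
      linarith
    · omega

theorem double : DoubleStatement := by
  intro d B lo u x hB hu h0 h1
  have hG : ∀ u, Gd B u = ((blkB B u).ncard : ℝ) / 2 ^ u := fun _ => rfl
  have hp : (0 : ℝ) < 2 ^ u := by positivity
  have hpx : (0 : ℝ) < 2 ^ x := by positivity
  have hx2 : (2 : ℝ) ^ x ≤ 2 := by
    calc (2 : ℝ) ^ x ≤ 2 ^ (1 : ℝ) := Real.rpow_le_rpow_of_exponent_le (by norm_num) h1
      _ = 2 := Real.rpow_one _
  have hx1 : (1 : ℝ) ≤ 2 ^ x := Real.one_le_rpow (by norm_num) h0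
  have hux : (2 : ℝ) ^ (u + x) = 2 ^ u * 2 ^ x := Real.rpow_add (by norm_num) _ _
  have hu1 : (2 : ℝ) ^ (u + 1) = 2 * 2 ^ u := by
    rw [Real.rpow_add (by norm_num), Real.rpow_one]; ring
  have k1 : ((blkB B u).ncard : ℝ) ≤ (blkB B (u + x)).ncard := by
    exact_mod_cast ncard_le_shift hB hu h0 h1
  have k2 : ((blkB B (u + x)).ncard : ℝ) ≤ (blkB B (u + 1)).ncard := by
    have := ncard_le_shift (x := 1 - x) hB (show (lo : ℝ) ≤ u + x by linarith) (by linarith)
      (by linarith)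
    rw [show u + x + (1 - x) = u + 1 by ring] at this
    exact_mod_cast this
  have n0 : (0 : ℝ) ≤ (blkB B u).ncard := Nat.cast_nonneg _
  have n1 : (0 : ℝ) ≤ (blkB B (u + x)).ncard := Nat.cast_nonneg _
  constructor
  · rw [hG, hG, hux, div_div, div_le_div_iff₀ (by positivity) (by positivity)]
    calc ((blkB B u).ncard : ℝ) * (2 ^ u * 2 ^ x) ≤ (blkB B u).ncard * (2 ^ u * 2) := by gcongr
      _ ≤ (blkB B (u + x)).ncard * (2 ^ u * 2) := by gcongr
  · rw [hG, hG, hux, hu1, mul_div_assoc', div_le_div_iff₀ (by positivity) (by positivity)]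
    calc ((blkB B (u + x)).ncard : ℝ) * (2 * 2 ^ u) ≤ (blkB B (u + 1)).ncard * (2 * 2 ^ u) := by
          gcongr
      _ = 2 * (blkB B (u + 1)).ncard * (2 ^ u * 1) := by ring
      _ ≤ 2 * (blkB B (u + 1)).ncard * (2 ^ u * 2 ^ x) := by gcongr

end Pool.Agent.Lib.MP_edb5be_nt.ND.H63
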