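import Pool.Agent.Lib.MP_edb5be_nt.ND.Iface

/-! Module SEMI: Vandermonde for `PJ`. -/

set_option autoImplicit false

namespace Pool.Agent.Lib.MP_edb5be_nt.ND.H63

open Finset Pool.Agent.Lib.MP_0a5adf_nt.TP Pool.Agent.Lib.MP_edb5be_nt.ND

theorem bw_eq_zero {j v : ℕ} (h : j < v) : bw j v = 0 := by
  unfold bw
  rw [Nat.choose_eq_zero_of_lt h]
  simp

theorem bw_add (j j' w : ℕ) :
    bw (j + j') w = ∑ p ∈ antidiagonal w, bw j p.1 * bw j' p.2 := by
  unfold bw
  rw [Nat.add_choose_eq]
  push_cast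
  rw [Finset.sum_div]
  refine sum_congr rfl fun p _ => ?_
  rw [pow_add]
  field_simp

theorem semi : SemiStatement := by
  intro j j' F z
  unfold PJ
  set g : ℕ × ℕ → ℝ := fun p => bw j p.1 * bw j' p.2 * F (z - (j + j' : ℕ) + th * (p.1 + p.2 : ℕ))
    with hg
  have h1 : ∑ v ∈ range (j + 1), bw j v *
      ∑ v' ∈ range (j' + 1), bw j' v' * F (z - j + th * v - j' + th * v') =
      ∑ p ∈ range (j + 1) ×ˢ range (j' + 1), g p := by
    rw [sum_product]
    refine sum_congr rfl fun v _ => ?_
    rw [mul_sum]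
    refine sum_congr rfl fun v' _ => ?_
    simp only [hg]
    rw [mul_assoc]
    congr 3
    push_cast
    ring
  rw [h1]
  have hmaps : ∀ p ∈ range (j + 1) ×ˢ range (j' + 1), p.1 + p.2 ∈ range (j + j' + 1) := by
    intro p hp
    rw [mem_product, mem_range, mem_range] at hp
    rw [mem_range]
    omega
  rw [← sum_fiberwise_of_maps_to hmaps]
  refine sum_congr rfl fun w _ => ?_
  have h2 : ∑ p ∈ range (j + 1) ×ˢ range (j' + 1) with p.1 + p.2 = w, g p =
      ∑ p ∈ antidiagonal w, g p := by
    refine sum_subset ?_ ?_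
    · intro p hp
      rw [mem_filter] at hp
      exact HasAntidiagonal.mem_antidiagonal.2 hp.2
    · intro p hp hn
      rw [HasAntidiagonal.mem_antidiagonal] at hp
      rw [mem_filter, mem_product, mem_range, mem_range, not_and] at hn
      simp only [hg]
      by_cases h : p.1 < j + 1
      · by_cases h' : p.2 < j' + 1
        · exact absurd hp (hn ⟨h, h'⟩)
        · rw [bw_eq_zero (show j' < p.2 by omega)]
          ring
      · rw [bw_eq_zero (show j < p.1 by omega)]
        ring
  rw [h2, bw_add, sum_mul]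
  refine sum_congr rfl fun p hp => ?_
  rw [HasAntidiagonal.mem_antidiagonal] at hp
  simp only [hg]
  rw [hp]

end Pool.Agent.Lib.MP_edb5be_nt.ND.H63
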